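import Pool.Agent.ISB.StmtsC

/-!
# Squad ISB, row STA: the layer, one tree
-/

set_option autoImplicit false

namespace Pool.Agent.ISB.H91

open scoped Classical commutatorElement

open Pool.Agent.ISB

/-- the elements of `N` which act on `w` as an element of `M` -/
def VV {G Ω : Type} [Group G] [MulAction G Ω] (N M : Subgroup G) (hM : M.Normal) (w : Ω) :
    Subgroup N where
  carrier := {y | ∃ m ∈ M, (y : G) • w = m • w}
  one_mem' := ⟨1, M.one_mem, rfl⟩
  mul_mem' := by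
    rintro a b ⟨m, hm, h1⟩ ⟨m', hm', h2⟩
    refine ⟨((a : G) * m' * (a : G)⁻¹) * m, M.mul_mem (hM.conj_mem _ hm' _) hm, ?_⟩
    rw [Subgroup.coe_mul, mul_smul, h2, mul_smul _ m, ← h1, ← mul_smul, ← mul_smul]
    congr 1
    group
  inv_mem' := by
    rintro a ⟨m, hm, h1⟩
    have h3 : (a : G)⁻¹ * m⁻¹ * (a : G) ∈ M := by
      have := hM.conj_mem _ (M.inv_mem hm) ((a : G)⁻¹)
      rwa [inv_inv] at this
    refine ⟨(a : G)⁻¹ * m⁻¹ * (a : G), h3, ?_⟩
    rw [Subgroup.coe_inv, mul_smul _ (a : G), h1, mul_smul, inv_smul_smul]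

theorem mem_VV {G Ω : Type} [Group G] [MulAction G Ω] (N M : Subgroup G) (hM : M.Normal) (w : Ω)
    (y : N) : y ∈ VV N M hM w ↔ ∃ m ∈ M, (y : G) • w = m • w := Iff.rfl

theorem sta (hCnt : CntStmt) : StaStmt := by
  intro G Ω _ _ _ r P κ ω hr hodd hP2 hR t ht htw N hN hNP
  haveI hPn : P.Normal := hR.nrm
  haveI := hN
  have hMn : (⁅N, P⁆ : Subgroup G).Normal := Subgroup.commutator_normal N P
  haveI := hMn
  have hMN : ⁅N, P⁆ ≤ N := Subgroup.commutator_le_left N P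
  have hcomm : ∀ x y : N ⧸ (⁅N, P⁆ : Subgroup G).subgroupOf N, x * y = y * x := by
    intro x y
    induction x using QuotientGroup.induction_on with
    | _ a =>
    induction y using QuotientGroup.induction_on with
    | _ b =>
    rw [← QuotientGroup.mk_mul, ← QuotientGroup.mk_mul, QuotientGroup.eq, Subgroup.mem_subgroupOf]
    have h1 : ((((a * b)⁻¹ * (b * a) : N)) : G) = ⁅(b : G)⁻¹, (a : G)⁻¹⁆ := by
      rw [commutatorElement_def]
      push_cast
      group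
    rw [h1]
    exact Subgroup.commutator_mem_commutator (N.inv_mem b.2) (P.inv_mem (hNP a.2))
  letI instQ : CommGroup (N ⧸ (⁅N, P⁆ : Subgroup G).subgroupOf N) :=
    { (inferInstance : Group (N ⧸ (⁅N, P⁆ : Subgroup G).subgroupOf N)) with
      mul_comm := hcomm }
  have hfin : Finite (N ⧸ (⁅N, P⁆ : Subgroup G).subgroupOf N) := inferInstance
  have hN2 : IsPGroup 2 N := hP2.to_le hNP
  have hQ2 : IsPGroup 2 (N ⧸ (⁅N, P⁆ : Subgroup G).subgroupOf N) := hN2.to_quotient _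
  have hmap : (⁅N, P⁆ : Subgroup G).subgroupOf N ≤
      ((⁅N, P⁆ : Subgroup G).subgroupOf N).comap (MulAut.conjNormal t : MulAut N).toMonoidHom := by
    intro y hy
    rw [Subgroup.mem_comap, Subgroup.mem_subgroupOf]
    rw [Subgroup.mem_subgroupOf] at hy
    exact hMn.conj_mem _ hy t
  let τ : (N ⧸ (⁅N, P⁆ : Subgroup G).subgroupOf N) →* (N ⧸ (⁅N, P⁆ : Subgroup G).subgroupOf N) :=
    QuotientGroup.map _ _ (MulAut.conjNormal t : MulAut N).toMonoidHom hmap
  have hτ : ∀ y : N, τ (QuotientGroup.mk y) = QuotientGroup.mk ((MulAut.conjNormal t : MulAut N) y) :=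
    fun y => rfl
  have hτn : ∀ n : ℕ, ∀ y : N, (τ^[n]) (QuotientGroup.mk y) =
      QuotientGroup.mk ((MulAut.conjNormal (t ^ n) : MulAut N) y) := by
    intro n
    induction n with
    | zero => intro y; simp
    | succ n ih =>
      intro y
      rw [Function.iterate_succ_apply', ih, hτ, pow_succ', map_mul]
      rfl
  have hτr : ∀ x, (τ^[r]) x = x := by
    intro x
    induction x using QuotientGroup.induction_on with
    | _ y =>
    rw [hτn, ht, map_one]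
    rfl
  obtain ⟨k, hk, hU⟩ := hCnt (N ⧸ (⁅N, P⁆ : Subgroup G).subgroupOf N) hQ2 r hr hodd τ
    (fun k => (VV N ⁅N, P⁆ hMn (ω k)).map (QuotientGroup.mk' _)) hτr (by
      intro x
      induction x using QuotientGroup.induction_on with
      | _ y =>
      obtain ⟨x0, hx0⟩ := hR.fix (y : G) (hNP y.2)
      obtain ⟨k, hk, g, hg, rfl⟩ := hR.cov x0
      refine ⟨k, hk, y, ?_, rfl⟩
      refine ⟨⁅(y : G), g⁻¹⁆, Subgroup.commutator_mem_commutator y.2 (P.inv_mem hg), ?_⟩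
      have h1 : (g⁻¹ * (y : G) * g) • ω k = ω k := by
        rw [mul_smul, mul_smul, hx0, inv_smul_smul]
      have h2 : (y : G) = ⁅(y : G), g⁻¹⁆ * (g⁻¹ * (y : G) * g) := by
        rw [commutatorElement_def]
        group
      conv_lhs => rw [h2]
      rw [mul_smul, h1]) (by
      rintro k x ⟨y, ⟨m, hm, hy⟩, rfl⟩
      refine ⟨(MulAut.conjNormal t : MulAut N) y, ?_, rfl⟩
      refine ⟨t * m * t⁻¹, hMn.conj_mem _ hm t, ?_⟩
      have h1 : t⁻¹ • ω k = ω k := by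
        rw [inv_smul_eq_iff]
        exact (htw k).symm
      rw [MulAut.conjNormal_apply, mul_smul, mul_smul, h1, hy, mul_smul, mul_smul, h1])
  refine ⟨k, hk, ?_⟩
  intro y hy
  obtain ⟨v, ⟨m, hm, hv⟩, hvy⟩ := hU (QuotientGroup.mk ⟨y, hy⟩)
  have h1 : (QuotientGroup.mk v : N ⧸ (⁅N, P⁆ : Subgroup G).subgroupOf N) =
      QuotientGroup.mk ((⟨y, hy⟩ : N)⁻¹ * (MulAut.conjNormal t : MulAut N) ⟨y, hy⟩) := hvy
  rw [QuotientGroup.eq, Subgroup.mem_subgroupOf] at h1
  set m0 : G := ((v⁻¹ * ((⟨y, hy⟩ : N)⁻¹ * (MulAut.conjNormal t : MulAut N) ⟨y, hy⟩) : N) : G) with hm0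
  have h2 : m0 = (v : G)⁻¹ * (y⁻¹ * (t * y * t⁻¹)) := by
    rw [hm0]
    rfl
  have h3 : y⁻¹ * (t * y * t⁻¹) = ((v : G) * m0 * (v : G)⁻¹) * (v : G) := by
    rw [h2]
    group
  refine ⟨((v : G) * m0 * (v : G)⁻¹) * m, (⁅N, P⁆ : Subgroup G).mul_mem (hMn.conj_mem _ h1 _) hm, ?_⟩
  rw [h3, mul_smul _ (v : G), hv, mul_smul _ m]

end Pool.Agent.ISB.H91
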